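import Pool.Agent.N658.FF.Stm3

/-! # Frustration-free Hamiltonians: one scale -/

open scoped BigOperators InnerProductSpace Matrix Classical ComplexOrder

noncomputable section

namespace Pool.Agent.N690.FF

open Pool.Agent.N658.FF

/-- the constants -/
def be (C : ℝ) : ℕ → ℝ
  | 0 => 1
  | j + 1 => be C j + (be C j + 1) * C

lemma be_one_le {C : ℝ} (hC : 0 ≤ C) (j : ℕ) : 1 ≤ be C j := by
  induction j with
  | zero => exact le_rfl
  | succ j ih =>
    rw [be]
    nlinarith

lemma be_mono {C : ℝ} (hC : 0 ≤ C) : Monotone (be C) := by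
  apply monotone_nat_of_le_succ
  intro j
  have := be_one_le hC j
  rw [be]
  nlinarith

section
variable {T ι : Type} [DecidableEq T]

/-- the level of a term -/
def lev {c : ℕ} (N : ι → Finset T) (col : ι → Fin c) : List ι → T → ℕ
  | [], _ => 0
  | t :: l, x => if x ∈ N t then c - (col t : ℕ) else lev N col l x

lemma lev_le {c : ℕ} (N : ι → Finset T) (col : ι → Fin c) (l : List ι) (x : T) :
    lev N col l x ≤ c := by
  induction l with
  | nil => exact Nat.zero_le _
  | cons t l ih =>
    rw [lev]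
    split_ifs
    · omega
    · exact ih

lemma lev_lt {c : ℕ} (N : ι → Finset T) (col : ι → Fin c) (near : ι → ι → Prop)
    (hcol : ∀ t j, t ≠ j → near t j → col t ≠ col j)
    (hdis : ∀ t j, t ≠ j → ¬ near t j → Disjoint (N t) (N j)) (t : ι) (x : T) (hx : x ∈ N t)
    (l : List ι) (htl : t ∉ l) (hle : ∀ j ∈ l, col t ≤ col j) :
    lev N col l x + (col t : ℕ) < c := by
  induction l with
  | nil => rw [lev]; have := (col t).2; omega
  | cons j l ih =>
    rw [lev]
    split_ifs with h
    · have hne : t ≠ j := fun e => htl (by rw [e]; exact List.mem_cons_self)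
      have hnear : near t j := by
        by_contra hn
        exact Finset.disjoint_left.1 (hdis t j hne hn) hx h
      have h1 := hcol t j hne hnear
      have h2 := hle j List.mem_cons_self
      have h3 : col t < col j := lt_of_le_of_ne h2 h1
      have h4 : (col t : ℕ) < (col j : ℕ) := h3
      have h5 := (col j).2
      omega
    · exact ih (fun h => htl (List.mem_cons_of_mem _ h))
        (fun j hj => hle j (List.mem_cons_of_mem _ hj))

lemma rest_eq [DecidableEq ι] (X : ι → Finset T) (l : List ι) :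
    rest X l = l.toFinset.biUnion X := by
  induction l with
  | nil => simp [rest]
  | cons t l ih => rw [rest, ih, List.toFinset_cons, Finset.biUnion_insert]

lemma Nb_mono [Fintype T] (adj : T → T → Prop) (S : Finset T) {i j : ℕ} (h : i ≤ j) :
    Nb adj i S ⊆ Nb adj j S := by
  induction h with
  | refl => exact subset_rfl
  | step _ ih => exact ih.trans (by rw [Nb]; exact Finset.subset_union_left)

end

/-- the step condition for sorted lists -/
lemma steps_sorted {E : Type} [NormedAddCommGroup E] [InnerProductSpace ℂ E]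
    [FiniteDimensional ℂ E] {T ι : Type} [Fintype T] [DecidableEq T]
    (V : T → Submodule ℂ E) (X N' N : ι → Finset T) {c : ℕ} (col : ι → Fin c)
    (near : ι → ι → Prop) (C q : ℝ) (M : ℕ) (hC : 1 ≤ C) (hq : 0 ≤ q)
    (hM : ∀ t, (X t).card ≤ M) (hNN : ∀ t, N' t ⊆ N t)
    (hcol : ∀ t j, t ≠ j → near t j → col t ≠ col j)
    (hdis : ∀ t j, t ≠ j → ¬ near t j → Disjoint (N t) (N j))
    (hstep : ∀ (B : Finset T) (t : ι), ∀ u ∈ G V B,
      (∑ x ∈ N' t, (eps V x (pr (G V (B ∪ X t)) u) + eps V x (u - pr (G V (B ∪ X t)) u)) +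
        ‖u - pr (G V (B ∪ X t)) u‖ ^ 2 ≤
          C * (∑ y ∈ N t, eps V y u + (X t).card * q * ‖u‖ ^ 2)) ∧
      ∀ (w : T → ℝ) (β : ℝ), (∀ x, 0 ≤ w x) → (∀ x, w x ≤ β) →
        ∑ x ∈ Finset.univ \ N' t,
          w x * (eps V x (pr (G V (B ∪ X t)) u) + eps V x (u - pr (G V (B ∪ X t)) u)) ≤
        ∑ x ∈ Finset.univ \ N' t, w x * eps V x u +
          β * (C * (X t).card * q * ‖u‖ ^ 2)) :
    ∀ l : List ι, l.Nodup → l.Pairwise (fun t j => col t ≤ col j) →
      Steps V X ((2 * be C c + 1) * C * M * q) (fun l x => be C (lev N col l x)) l := by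
  have hC0 : 0 ≤ C := by linarith
  intro l
  induction l with
  | nil => intro _ _; trivial
  | cons t l ih =>
    intro hnd hpw
    rw [List.nodup_cons] at hnd
    rw [List.pairwise_cons] at hpw
    refine ⟨?_, ih hnd.2 hpw.2⟩
    intro B u hu
    obtain ⟨s1, s2⟩ := hstep B t u hu
    have s2' := s2 (fun x => be C (lev N col l x)) (be C c)
      (fun x => zero_le_one.trans (be_one_le hC0 _)) (fun x => be_mono hC0 (lev_le N col l x))
    set a := pr (G V (B ∪ X t)) u with ha
    set b := u - a with hb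
    set β : ℝ := be C (c - 1 - (col t : ℕ)) with hβ
    have hct := (col t).2
    have hβ1 : 1 ≤ β := be_one_le hC0 _
    have hβc : β ≤ be C c := be_mono hC0 (by omega)
    have heps : ∀ x (v : E), 0 ≤ eps V x v := fun x v => sq_nonneg _
    have hlevN : ∀ x ∈ N t, be C (lev N col l x) ≤ β := by
      intro x hx
      have := lev_lt N col near hcol hdis t x hx l hnd.1 hpw.1
      exact be_mono hC0 (by omega)
    have hnewN : ∀ x ∈ N t, be C (lev N col (t :: l) x) = β + (β + 1) * C := by
      intro x hx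
      rw [lev, if_pos hx]
      have : c - (col t : ℕ) = (c - 1 - (col t : ℕ)) + 1 := by omega
      rw [this, be]
    have hnewO : ∀ x, x ∉ N t → be C (lev N col (t :: l) x) = be C (lev N col l x) := by
      intro x hx
      rw [lev, if_neg hx]
    -- the inner part
    have p1 : ∑ x ∈ N' t, be C (lev N col l x) * (eps V x a + eps V x b) + ‖b‖ ^ 2 ≤
        (β + 1) * (C * (∑ y ∈ N t, eps V y u + (X t).card * q * ‖u‖ ^ 2)) := by
      have h1 : ∑ x ∈ N' t, be C (lev N col l x) * (eps V x a + eps V x b) ≤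
          ∑ x ∈ N' t, (β + 1) * (eps V x a + eps V x b) := by
        refine Finset.sum_le_sum fun x hx => ?_
        have h2 := hlevN x (hNN t hx)
        have h3 := add_nonneg (heps x a) (heps x b)
        exact mul_le_mul_of_nonneg_right (by linarith) h3
      rw [← Finset.mul_sum] at h1
      have h4 : ‖b‖ ^ 2 ≤ (β + 1) * ‖b‖ ^ 2 := by
        have : 0 ≤ ‖b‖ ^ 2 := sq_nonneg _
        nlinarith
      have h5 := mul_le_mul_of_nonneg_left s1 (by linarith : 0 ≤ β + 1)
      rw [mul_add] at h5
      linarith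
    -- the split of the sum
    have p2 : ∑ x, be C (lev N col l x) * (eps V x a + eps V x b) =
        ∑ x ∈ Finset.univ \ N' t, be C (lev N col l x) * (eps V x a + eps V x b) +
          ∑ x ∈ N' t, be C (lev N col l x) * (eps V x a + eps V x b) :=
      (Finset.sum_sdiff (Finset.subset_univ _)).symm
    -- the comparison of the weights
    have p3 : ∑ x ∈ Finset.univ \ N' t, be C (lev N col l x) * eps V x u +
        (β + 1) * C * ∑ y ∈ N t, eps V y u ≤ ∑ x, be C (lev N col (t :: l) x) * eps V x u := by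
      have e1 : ∑ x ∈ Finset.univ \ N' t, be C (lev N col l x) * eps V x u =
          ∑ x, if x ∈ N' t then 0 else be C (lev N col l x) * eps V x u := by
        rw [← Finset.sum_sdiff (Finset.subset_univ (N' t))]
        have z : ∑ x ∈ N' t, (if x ∈ N' t then 0 else be C (lev N col l x) * eps V x u) = 0 :=
          Finset.sum_eq_zero fun x hx => if_pos hx
        rw [z, add_zero]
        refine Finset.sum_congr rfl fun x hx => ?_
        rw [if_neg (Finset.mem_sdiff.1 hx).2]
      have e2 : (β + 1) * C * ∑ y ∈ N t, eps V y u =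
          ∑ x, if x ∈ N t then (β + 1) * C * eps V x u else 0 := by
        rw [Finset.mul_sum, ← Finset.sum_sdiff (Finset.subset_univ (N t))]
        have z : ∑ x ∈ Finset.univ \ N t, (if x ∈ N t then (β + 1) * C * eps V x u else 0) = 0 :=
          Finset.sum_eq_zero fun x hx => if_neg (Finset.mem_sdiff.1 hx).2
        rw [z, zero_add]
        refine Finset.sum_congr rfl fun x hx => ?_
        rw [if_pos hx]
      rw [e1, e2, ← Finset.sum_add_distrib]
      refine Finset.sum_le_sum fun x _ => ?_
      have hex := heps x u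
      by_cases hx : x ∈ N t
      · rw [hnewN x hx, if_pos hx]
        have h1 : (if x ∈ N' t then 0 else be C (lev N col l x) * eps V x u) ≤ β * eps V x u := by
          split_ifs
          · positivity
          · exact mul_le_mul_of_nonneg_right (hlevN x hx) hex
        linarith
      · rw [hnewO x hx, if_neg hx, if_neg (fun h => hx (hNN t h)), add_zero]
    -- the error terms
    have p4 : be C c * (C * (X t).card * q * ‖u‖ ^ 2) +
        (β + 1) * (C * ((X t).card * q * ‖u‖ ^ 2)) ≤
        (2 * be C c + 1) * C * M * q * ‖u‖ ^ 2 := by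
      have hXM : ((X t).card : ℝ) ≤ M := by exact_mod_cast hM t
      have hu0 : 0 ≤ ‖u‖ ^ 2 := sq_nonneg _
      have hbc : 0 ≤ be C c := by linarith
      calc be C c * (C * (X t).card * q * ‖u‖ ^ 2) +
            (β + 1) * (C * ((X t).card * q * ‖u‖ ^ 2))
          = (be C c + (β + 1)) * (C * (X t).card * q * ‖u‖ ^ 2) := by ring
        _ ≤ (be C c + (be C c + 1)) * (C * M * q * ‖u‖ ^ 2) := by gcongr
        _ = _ := by ring
    change ∑ x, be C (lev N col l x) * (eps V x a + eps V x b) + ‖b‖ ^ 2 ≤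
      ∑ x, be C (lev N col (t :: l) x) * eps V x u +
        (2 * be C c + 1) * C * M * q * ‖u‖ ^ 2
    have p5 : (β + 1) * (C * (∑ y ∈ N t, eps V y u + (X t).card * q * ‖u‖ ^ 2)) =
        (β + 1) * C * ∑ y ∈ N t, eps V y u + (β + 1) * (C * ((X t).card * q * ‖u‖ ^ 2)) := by ring
    rw [p2]
    linarith

/-- a vector of `S` is determined by its projection to `W` -/
lemma finrank_le_of_pr {E : Type} [NormedAddCommGroup E] [InnerProductSpace ℂ E]
    [FiniteDimensional ℂ E] (S W : Submodule ℂ E) (h : ∀ u ∈ S, pr W u = 0 → u = 0) :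
    Module.finrank ℂ S ≤ Module.finrank ℂ W := by
  let f : S →ₗ[ℂ] W := (W.orthogonalProjectionOnto : E →L[ℂ] W).toLinearMap ∘ₗ S.subtype
  apply LinearMap.finrank_le_finrank_of_injective (f := f)
  rw [← LinearMap.ker_eq_bot, LinearMap.ker_eq_bot']
  intro u hu
  have h1 : pr W (u : E) = 0 := by
    have h2 : W.orthogonalProjectionOnto (u : E) = 0 := hu
    show W.starProjection (u : E) = 0
    rw [Submodule.starProjection_apply, h2]
    rfl
  exact Subtype.ext (h u u.2 h1)

theorem level (h0 : StmColor) (h1 : StmStep) (h2 : StmTree2) : StmLevel := by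
  intro g ν Δ Γ hΔ
  obtain ⟨C₁, ρ, hC₁, hρ0, hρ1, hstep⟩ := h1 g Δ Γ hΔ
  have hC0 : 0 ≤ C₁ := by linarith
  set bm := be C₁ (ν + 1) with hbm
  have hbm1 : 1 ≤ bm := be_one_le hC0 _
  refine ⟨max bm ((2 * bm + 1) * C₁), ρ, hbm1.trans (le_max_left _ _), hρ0, hρ1, ?_⟩
  intro E _ _ _ T ι _ _ _ _ V adj hloc hgap hgrow X near K M hM hsymm hdeg hdis I B S θ hSB hS n
    hn Λ hΛ δ hδ
  obtain ⟨col, hcol⟩ := h0 ι near hsymm ν hdeg
  set N : ι → Finset T := fun t => Nb adj (2 * K * (g + 1) + 1) (X t) with hN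
  set N' : ι → Finset T := fun t => Nb adj (K * (g + 1) + 1) (X t) with hN'
  have hNN : ∀ t, N' t ⊆ N t := fun t => Nb_mono adj (X t) (by
    have : K * (g + 1) ≤ 2 * K * (g + 1) := Nat.mul_le_mul_right _ (by omega)
    omega)
  have hqK : 0 ≤ ρ ^ K := pow_nonneg hρ0 _
  -- the sorted list
  set ts : List ι := I.toList.mergeSort (fun t j => decide (col t ≤ col j)) with hts
  have hperm : ts.Perm I.toList := List.mergeSort_perm _ _
  have hnd : ts.Nodup := hperm.nodup_iff.2 I.nodup_toList
  have hpw : ts.Pairwise (fun t j => col t ≤ col j) := by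
    have := List.pairwise_mergeSort (le := fun t j => decide (col t ≤ col j))
      (fun a b c hab hbc => by
        simp only [decide_eq_true_eq] at hab hbc ⊢
        exact hab.trans hbc)
      (fun a b => by
        simp only [Bool.or_eq_true, decide_eq_true_eq]
        exact le_total _ _) I.toList
    exact this.imp fun h => by simpa using h
  have hlen : ts.length = I.card := by rw [hperm.length_eq, Finset.length_toList]
  have hmem : ∀ t, t ∈ ts ↔ t ∈ I := fun t => by rw [hperm.mem_iff, Finset.mem_toList]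
  set τ : ℝ := (2 * be C₁ (ν + 1) + 1) * C₁ * M * ρ ^ K with hτ
  have hτ0 : 0 ≤ τ := by
    have : 0 ≤ be C₁ (ν + 1) := by linarith
    positivity
  have hsteps := steps_sorted V X N' N col near C₁ (ρ ^ K) M hC₁ hqK hM hNN hcol hdis
    (fun B t u hu => hstep E T V adj hloc hgap hgrow B (X t) K u hu) ts hnd hpw
  have heps : ∀ x (v : E), 0 ≤ eps V x v := fun x v => sq_nonneg _
  obtain ⟨W, hW1, hW2⟩ := h2 E T ι V X τ (fun l x => be C₁ (lev N col l x)) hτ0
    (fun l x => zero_le_one.trans (be_one_le hC0 _)) n Λ (by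
      intro B u hu
      have := hΛ B u hu
      simpa [lev, be] using this) ts hnd hsteps B n le_rfl
  have hfin := hW2 δ (by
    intro F hF
    have e : rest X (ts.filter fun t => t ∉ F) = (I \ F).biUnion X := by
      rw [rest_eq]
      congr 1
      ext t
      simp [hmem]
    rw [e]
    exact hδ F hF)
  rw [hlen] at hfin
  refine le_trans ?_ hfin
  apply finrank_le_of_pr
  intro u hu hpu
  by_contra hne
  have hun : 0 < ‖u‖ := norm_pos_iff.2 hne
  have hu2 : 0 < ‖u‖ ^ 2 := by positivity
  have h3 := hW1 u (hSB hu)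
  rw [hpu, norm_zero] at h3
  have h4 := hS u hu
  have hsum0 : 0 ≤ ∑ x, eps V x u := Finset.sum_nonneg fun x _ => heps x u
  have hθ : 0 ≤ θ := by
    by_contra hθ
    have : θ * ‖u‖ ^ 2 < 0 := mul_neg_of_neg_of_pos (not_le.1 hθ) hu2
    linarith
  have h5 : ∑ x, be C₁ (lev N col ts x) * eps V x u ≤ bm * (θ * ‖u‖ ^ 2) := by
    calc ∑ x, be C₁ (lev N col ts x) * eps V x u ≤ ∑ x, bm * eps V x u := by
          refine Finset.sum_le_sum fun x _ => ?_
          exact mul_le_mul_of_nonneg_right (be_mono hC0 (lev_le N col ts x)) (heps x u)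
      _ = bm * ∑ x, eps V x u := by rw [Finset.mul_sum]
      _ ≤ _ := mul_le_mul_of_nonneg_left h4 (by linarith)
  have h6 : bm * θ ≤ max bm ((2 * bm + 1) * C₁) * θ :=
    mul_le_mul_of_nonneg_right (le_max_left _ _) hθ
  have h7 : (I.card : ℝ) * τ ≤ I.card * (max bm ((2 * bm + 1) * C₁) * M * ρ ^ K) := by
    rw [hτ]
    have : (2 * be C₁ (ν + 1) + 1) * C₁ ≤ max bm ((2 * bm + 1) * C₁) := le_max_right _ _
    gcongr
  have h8 : bm * θ + I.card * τ < n := by linarith
  have h9 : (bm * θ + I.card * τ) * ‖u‖ ^ 2 < n * ‖u‖ ^ 2 := mul_lt_mul_of_pos_right h8 hu2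
  rw [hlen] at h3
  nlinarith

end Pool.Agent.N690.FF
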